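import Pool.Agent.Lead.Nae
import Pool.Agent.H23.BP
import Pool.Agent.H23.Ori3

set_option autoImplicit false

namespace Pool.Agent.Results.MP_439cda_lc.Hard
open Pool.Agent.H11.PT Pool.Agent.Lead.Nae Pool.Agent.H23.BP Pool.Agent.H23.Ori List

/-- sizes of the two sides, edges of colour 1, edges of colour 2 -/
abbrev Inst := ℕ × ℕ × List (ℕ × ℕ) × List (ℕ × ℕ)

/-- edges join the two sides, and no edge has both colours -/
def Valid (y : Inst) : Prop :=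
  (∀ e ∈ y.2.2.1 ++ y.2.2.2, e.1 < y.1 ∧ e.2 < y.2.1) ∧ ∀ e ∈ y.2.2.1, e ∉ y.2.2.2

/-- perfect matchings -/
def PM (y : Inst) (M : Set (ℕ × ℕ)) : Prop :=
  (∀ e ∈ M, e ∈ y.2.2.1 ++ y.2.2.2) ∧ (∀ u < y.1, ∃! v, (u, v) ∈ M) ∧ ∀ v < y.2.1, ∃! u, (u, v) ∈ M

/-- two edge-disjoint perfect matchings, the first one of colour 1 -/
def COL (y : Inst) : Prop :=
  ∃ M₁ M₂, PM y M₁ ∧ PM y M₂ ∧ Disjoint M₁ M₂ ∧ ∀ e ∈ M₁, e ∈ y.2.2.1

abbrev F := List (ℕ × ℕ × ℕ)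

def R1 (φ : F) (x y : ℕ) : Prop := x = y ∨ (x / 4 < 3 * φ.length ∧ x = y + 1 ∧ (x % 4 = 1 ∨ x % 4 = 2)) ∨
  (x % 4 = 0 ∧ y % 4 = 2 ∧ y / 4 < 3 * φ.length ∧ nxt φ (y / 4) = x / 4)
def R2 (N x y : ℕ) : Prop :=
  (x / 4 < N ∧ y / 4 = x / 4 ∧ (x % 4 = 1 ∧ y % 4 = 3 ∨ x % 4 = 3 ∧ y % 4 = 2)) ∨
  (x / 4 < N ∧ y / 4 = N + x / 12 ∧ (x % 4 = 0 ∧ y % 4 < 2 ∨ x % 4 = 2 ∧ 1 < y % 4)) ∨
  (y / 4 < N ∧ x / 4 = N + y / 12 ∧ (y % 4 = 0 ∧ x % 4 < 2 ∨ y % 4 = 1 ∧ 1 < x % 4))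
noncomputable def red (φ : F) : Inst := (16 * φ.length, 16 * φ.length,
  (range (16 * φ.length) ×ˢ range (16 * φ.length)).filter fun e => dc (R1 φ e.1 e.2),
  (range (16 * φ.length) ×ˢ range (16 * φ.length)).filter fun e => dc (R2 (3 * φ.length) e.1 e.2))

theorem red_pt : PT red := by unfold red R1 R2 nxt cyc var; fun_prop

variable {φ : F}

theorem m1 {x y : ℕ} : (x, y) ∈ (red φ).2.2.1 ↔ (x < 16 * φ.length ∧ y < 16 * φ.length) ∧ R1 φ x y := by
  simp [red]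
theorem m2 {x y : ℕ} : (x, y) ∈ (red φ).2.2.2 ↔
    (x < 16 * φ.length ∧ y < 16 * φ.length) ∧ R2 (3 * φ.length) x y := by
  simp [red]

theorem valid : Valid (red φ) := by
  refine ⟨fun e m => ?_, fun e a b => ?_⟩
  · exact (mem_append.1 m).elim (fun a => (m1.1 a).1) fun a => (m2.1 a).1
  · have := (m1.1 a).2
    have := (m2.1 b).2
    unfold R1 R2 at *
    omega

theorem nl {o : ℕ} (h : o < 3 * φ.length) : nxt φ o < 3 * φ.length ∧ var φ (nxt φ o) = var φ o := by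
  obtain ⟨d, a1, a2, a3, -⟩ := nxt_spec φ h
  refine ⟨?_, a3⟩
  rw [a2]; unfold cyc; split <;> omega

theorem nae_iff (σ : ℕ → Bool) : (∀ c ∈ φ, ¬ (σ c.1 = σ c.2.1 ∧ σ c.2.1 = σ c.2.2)) ↔
    ∀ i < φ.length, ¬ (σ (var φ (3 * i)) = σ (var φ (3 * i + 1)) ∧
      σ (var φ (3 * i + 1)) = σ (var φ (3 * i + 2))) := by
  rw [forall_mem_iff_getElem]
  refine forall_congr' fun c => forall_congr' fun h => ?_
  simp [var, show (3 * c + 1) % 3 = 1 by omega, show (3 * c + 2) % 3 = 2 by omega,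
    show (3 * c + 1) / 3 = c by omega, show (3 * c + 2) / 3 = c by omega, h]

theorem ph {a b c x y z u v : ℕ} (h1 : a = x ∨ a = u ∨ a = v) (h2 : b = y ∨ b = u ∨ b = v)
    (h3 : c = z ∨ c = u ∨ c = v) : a ≠ x → b ≠ y → c ≠ z → a ≠ b → a ≠ c → b ≠ c → False := by
  omega

theorem sound (h : COL (red φ)) : NAE φ := by
  obtain ⟨A, B, ⟨-, a1, a2⟩, ⟨b0, b1, b2⟩, d, a0⟩ := h
  choose! f f1 f2 using a1
  choose! g g1 g2 using b1
  have n : (red φ).1 = 16 * φ.length := rfl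
  have n' : (red φ).2.1 = 16 * φ.length := rfl
  rw [n] at f1 f2 g1 g2
  rw [n'] at a2 b2
  have fR : ∀ x < 16 * φ.length, f x < 16 * φ.length ∧ R1 φ x (f x) := fun x a =>
    ⟨(m1.1 (a0 _ (f1 x a))).1.2, (m1.1 (a0 _ (f1 x a))).2⟩
  have gR : ∀ x < 16 * φ.length, g x < 16 * φ.length ∧ (R1 φ x (g x) ∨ R2 (3 * φ.length) x (g x)) :=
    fun x a => (mem_append.1 (b0 _ (g1 x a))).elim (fun b => ⟨(m1.1 b).1.2, .inl (m1.1 b).2⟩)
      fun b => ⟨(m2.1 b).1.2, .inr (m2.1 b).2⟩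
  have fi : ∀ x < 16 * φ.length, ∀ z < 16 * φ.length, f x = f z → x = z := fun x a z b e =>
    (a2 _ (fR x a).1).unique (f1 x a) (e ▸ f1 z b)
  have gi : ∀ x < 16 * φ.length, ∀ z < 16 * φ.length, g x = g z → x = z := fun x a z b e =>
    (b2 _ (gR x a).1).unique (g1 x a) (e ▸ g1 z b)
  have fs : ∀ y < 16 * φ.length, ∃ x < 16 * φ.length, f x = y ∧ R1 φ x y := fun y a => by
    obtain ⟨x, b, -⟩ := a2 y a
    have := m1.1 (a0 _ b)
    exact ⟨x, this.1.1, (f2 x this.1.1 y b).symm, this.2⟩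
  have ne : ∀ x < 16 * φ.length, f x ≠ g x := fun x a e =>
    Set.disjoint_left.1 d (f1 x a) (e ▸ g1 x a)
  have st : ∀ o < 3 * φ.length, (f (4 * o) = 4 * o ↔ f (4 * nxt φ o) = 4 * nxt φ o) ∧
      (f (4 * o) ≠ 4 * o → f (4 * o + 2) = 4 * o + 1) := fun o a => by
    have l := (nl a).1
    by_cases k : f (4 * o) = 4 * o
    · refine ⟨iff_of_true k ?_, fun c => absurd k c⟩
      have r1 := (fR (4 * o + 1) (by omega)).2
      have r2 := (fR (4 * o + 2) (by omega)).2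
      have r3 := (fR (4 * nxt φ o) (by omega)).2
      have i1 := fi (4 * o) (by omega) (4 * o + 1) (by omega)
      have i2 := fi (4 * o + 1) (by omega) (4 * o + 2) (by omega)
      have i3 := fi (4 * o + 2) (by omega) (4 * nxt φ o) (by omega)
      have := nxt_inj φ (o := f (4 * nxt φ o) / 4) (o' := o)
      unfold R1 at *
      omega
    · obtain ⟨x, x1, x2, x3⟩ := fs (4 * o) (by omega)
      obtain rfl : x = 4 * o + 1 := by
        have : x ≠ 4 * o := fun e => k (e ▸ x2)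
        unfold R1 at x3; omega
      obtain ⟨y, y1, y2, y3⟩ := fs (4 * o + 1) (by omega)
      obtain rfl : y = 4 * o + 2 := by
        have : y ≠ 4 * o + 1 := fun e => by rw [e] at y2; omega
        unfold R1 at y3; omega
      obtain ⟨z, z1, z2, z3⟩ := fs (4 * o + 2) (by omega)
      obtain rfl : z = 4 * nxt φ o := by
        have : z ≠ 4 * o + 2 := fun e => by rw [e] at z2; omega
        rw [R1, show (4 * o + 2) / 4 = o by omega] at z3; omega
      exact ⟨iff_of_false k (by omega), fun _ => y2⟩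
  have sat : ∀ x < 16 * φ.length, g x % 4 = 2 → g x / 4 < 3 * φ.length → x % 4 = 3 := fun x a b c => by
    have r1 := (fR (g x + 1) (by omega)).2
    have r2 := (gR (g x + 1) (by omega)).2
    have := ne (g x + 1) (by omega)
    have := gi x a (g x + 1) (by omega)
    unfold R1 R2 at *
    omega
  have cl : ∀ o < 3 * φ.length, (g (4 * o) = 4 * o ∨ g (4 * o) = 4 * (3 * φ.length + o / 3) ∨
      g (4 * o) = 4 * (3 * φ.length + o / 3) + 1) ∧ (g (4 * o + 2) = 4 * o + 1 ∨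
      g (4 * o + 2) = 4 * (3 * φ.length + o / 3) + 2 ∨
      g (4 * o + 2) = 4 * (3 * φ.length + o / 3) + 3) := fun o a => by
    have r1 := (gR (4 * o) (by omega)).2
    have r2 := (gR (4 * o + 2) (by omega)).2
    have := sat (4 * o) (by omega)
    have := sat (4 * o + 2) (by omega)
    unfold R1 R2 at *
    omega
  obtain ⟨σ, hσ⟩ : ∃ σ : ℕ → Bool, ∀ v, σ v = true ↔
      ∃ o < 3 * φ.length, var φ o = v ∧ f (4 * o) = 4 * o := by
    classical exact ⟨fun x => decide _, fun x => decide_eq_true_iff⟩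
  have s : ∀ o < 3 * φ.length, σ (var φ o) = true ↔ f (4 * o) = 4 * o := fun o a => by
    refine (hσ _).trans ⟨fun ⟨j, b, c, e⟩ => ?_, fun b => ⟨o, a, rfl, b⟩⟩
    have := nxt_con φ (fun o => if f (4 * o) = 4 * o then 1 else 0)
      (fun o a => by simp only [(st o a).1]) a b c
    simp only [e, if_true] at this
    by_contra k
    simp [k] at this
  refine ⟨σ, (nae_iff _).2 fun i a ⟨x, y⟩ => ?_⟩
  have s0 := s (3 * i) (by omega)
  have s1 := s (3 * i + 1) (by omega)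
  have s2 := s (3 * i + 2) (by omega)
  have c0 := cl (3 * i) (by omega)
  have c1 := cl (3 * i + 1) (by omega)
  have c2 := cl (3 * i + 2) (by omega)
  rw [show 3 * i / 3 = i by omega] at c0
  rw [show (3 * i + 1) / 3 = i by omega] at c1
  rw [show (3 * i + 2) / 3 = i by omega] at c2
  rw [← x] at s1
  rw [← y, ← x] at s2
  have gn : ∀ x < 16 * φ.length, ∀ z < 16 * φ.length, x ≠ z → g x ≠ g z := fun x a z b c e =>
    c (gi x a z b e)
  have nn : ∀ x < 16 * φ.length, ∀ y, f x = y → g x ≠ y := fun x a y e => e ▸ (ne x a).symm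
  clear hσ s x y
  by_cases k : σ (var φ (3 * i)) = true
  · have := s0.1 k
    have := s1.1 k
    have := s2.1 k
    refine ph c0.1 c1.1 c2.1 (nn _ ?_ _ ‹_›) (nn _ ?_ _ ‹_›) (nn _ ?_ _ ‹_›) (gn _ ?_ _ ?_ ?_)
      (gn _ ?_ _ ?_ ?_) (gn _ ?_ _ ?_ ?_) <;> clear * - a <;> omega
  · refine ph c0.2 c1.2 c2.2 (nn _ ?_ _ ((st _ ?_).2 (mt s0.2 k))) (nn _ ?_ _ ((st _ ?_).2 (mt s1.2 k)))
      (nn _ ?_ _ ((st _ ?_).2 (mt s2.2 k))) (gn _ ?_ _ ?_ ?_) (gn _ ?_ _ ?_ ?_) (gn _ ?_ _ ?_ ?_) <;>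
      clear * - a <;> omega

theorem pm {g : ℕ → ℕ} (h : ∀ y < 16 * φ.length, (g y, y) ∈ (red φ).2.2.1 ++ (red φ).2.2.2)
    (i : ∀ y < 16 * φ.length, ∀ z < 16 * φ.length, g y = g z → y = z) :
    PM (red φ) {e | e.2 < 16 * φ.length ∧ e.1 = g e.2} := by
  refine ⟨fun ⟨x, y⟩ ⟨a, b⟩ => (show x = g y from b) ▸ h y a, fun x a => ?_, fun y a => ⟨g y, ⟨a, rfl⟩, fun x b => b.2⟩⟩
  obtain ⟨y, b, c⟩ := Finset.surj_on_of_inj_on_of_card_le (s := Finset.range (16 * φ.length))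
    (t := Finset.range (16 * φ.length)) (fun y _ => g y)
    (fun y b => Finset.mem_range.2 (valid.1 _ (h y (Finset.mem_range.1 b))).1)
    (fun y z b c => i y (Finset.mem_range.1 b) z (Finset.mem_range.1 c)) le_rfl x (Finset.mem_range.2 a)
  rw [Finset.mem_range] at b
  exact ⟨y, ⟨b, c⟩, fun z e => i z e.1 y b (e.2.symm.trans c)⟩

def idx (N y : ℕ) : ℕ := if N ≤ y / 4 then y / 4 - N else y / 12
def loc (N y : ℕ) : ℕ := if N ≤ y / 4 then 12 + y % 4 else y % 12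
def cd (N i s : ℕ) : ℕ := if s < 12 then 12 * i + s else 4 * (N + i) + (s - 12)

def Gl (a b y : ℕ) : ℕ := if 12 ≤ y then
    (if y % 4 < 2 then 4 * (y % 4) + (if y % 4 < a then 0 else 4)
    else 4 * (y % 4 - 2) + (if y % 4 - 2 < b then 2 else 6))
  else if y % 4 = 3 then y - 2 else if y % 4 = 2 then y + 1 else
  if y % 4 = 0 then (if y / 4 = a then y else 12 + y / 4 - if y / 4 < a then 0 else 1)
  else (if y / 4 = b then y + 1 else 12 + y / 4 + if y / 4 < b then 2 else 1)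

instance (N x y : ℕ) : Decidable (R2 N x y) := by
  unfold R2
  refine @instDecidableOr _ _ inferInstance (@instDecidableOr _ _ inferInstance inferInstance)

def R3 (a b x y : ℕ) : Prop :=
  R2 3 x y ∨ y < 11 ∧ (x = y ∧ y % 4 = 0 ∧ y / 4 = a ∨ x = y + 1 ∧ y % 4 = 1 ∧ y / 4 = b)

instance (a b x y : ℕ) : Decidable (R3 a b x y) := by
  unfold R3
  infer_instance

theorem Gl1 : ∀ a < 3, ∀ b < 3, ∀ y < 16, Gl a b y < 16 ∧ (∀ z < 16, Gl a b y = Gl a b z → y = z) ∧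
    (R2 3 (Gl a b y) y ∨ y < 11 ∧ (Gl a b y = y ∧ y % 4 = 0 ∧ y / 4 = a ∨
      Gl a b y = y + 1 ∧ y % 4 = 1 ∧ y / 4 = b)) := by
  have h1 : ∀ a < 3, ∀ b < 3, ∀ y < 16, Gl a b y < 16 := by decide +kernel
  have h2 : ∀ a < 3, ∀ b < 3, ∀ y < 16, ∀ z < 16, Gl a b y = Gl a b z → y = z := by decide +kernel
  have h3 : ∀ a < 3, ∀ b < 3, ∀ y < 16, R3 a b (Gl a b y) y := by decide +kernel
  exact fun a x b y c z => ⟨h1 a x b y c z, h2 a x b y c z, h3 a x b y c z⟩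

theorem cd1 {m N y : ℕ} (h : N = 3 * m) (l : y < 16 * m) :
    cd N (idx N y) (loc N y) = y ∧ idx N y < m ∧ loc N y < 16 := by
  unfold cd idx loc
  split_ifs <;> omega

theorem cd2 {m N i j s t : ℕ} (h : N = 3 * m) (a : i < m) (b : j < m) (c : s < 16) (d : t < 16)
    (e : cd N i s = cd N j t) : i = j ∧ s = t := by
  unfold cd at e
  split_ifs at e <;> omega

theorem cd3 {m N i s : ℕ} (h : N = 3 * m) (a : i < m) (c : s < 16) : cd N i s < 16 * m ∧
    cd N i s % 4 = s % 4 ∧ (s < 12 → cd N i s / 4 = 3 * i + s / 4 ∧ cd N i s / 12 = i) ∧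
      (12 ≤ s → cd N i s / 4 = N + i) := by
  unfold cd
  split_ifs <;> omega

theorem cd4 {m N i s t : ℕ} (h : N = 3 * m) (a : i < m) (c : s < 16) (d : t < 16) (e : R2 3 s t) :
    R2 N (cd N i s) (cd N i t) := by
  obtain ⟨-, a1, a2, a3⟩ := cd3 h a c
  obtain ⟨-, b1, b2, b3⟩ := cd3 h a d
  unfold R2 at *
  rw [a1, b1]
  obtain ⟨x, y, z⟩ | ⟨x, y, z⟩ | ⟨x, y, z⟩ := e
  · rw [(a2 (by omega)).1, (b2 (by omega)).1]
    exact .inl ⟨by omega, by omega, z⟩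
  · rw [(a2 (by omega)).1, (a2 (by omega)).2, b3 (by omega)]
    exact .inr (.inl ⟨by omega, rfl, z⟩)
  · rw [(b2 (by omega)).1, (b2 (by omega)).2, a3 (by omega)]
    exact .inr (.inr ⟨by omega, rfl, z⟩)

def G (N a b y : ℕ) : ℕ := cd N (idx N y) (Gl a b (loc N y))

theorem G1 {m N a b y : ℕ} (h : N = 3 * m) (ha : a < 3) (hb : b < 3) (l : y < 16 * m) :
    G N a b y < 16 * m ∧ (R2 N (G N a b y) y ∨ y / 4 < N ∧
      (G N a b y = y ∧ y % 4 = 0 ∧ y / 4 % 3 = a ∨ G N a b y = y + 1 ∧ y % 4 = 1 ∧ y / 4 % 3 = b)) := by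
  obtain ⟨c1, c2, c3⟩ := cd1 h l
  obtain ⟨d1, -, d2⟩ := Gl1 a ha b hb _ c3
  refine ⟨(cd3 h c2 d1).1, d2.imp (fun e => ?_) fun ⟨e, k⟩ => ?_⟩
  · have := cd4 h c2 d1 c3 e
    rwa [c1] at this
  · unfold G
    generalize idx N y = i at *
    generalize loc N y = s at *
    rw [cd, if_pos (by omega)] at c1
    refine ⟨by omega, k.imp (fun k => ?_) fun k => ?_⟩ <;> rw [k.1, cd, if_pos (by omega)] <;> omega

theorem G2 {m N y z : ℕ} {p q : ℕ → ℕ} (h : N = 3 * m) (ha : ∀ i, p i < 3) (hb : ∀ i, q i < 3)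
    (l : y < 16 * m) (l' : z < 16 * m)
    (e : G N (p (idx N y)) (q (idx N y)) y = G N (p (idx N z)) (q (idx N z)) z) : y = z := by
  obtain ⟨c1, c2, c3⟩ := cd1 h l
  obtain ⟨d1, d2, d3⟩ := cd1 h l'
  obtain ⟨a, b⟩ := cd2 h c2 d2 (Gl1 _ (ha _) _ (hb _) _ c3).1 (Gl1 _ (ha _) _ (hb _) _ d3).1 e
  rw [← a] at b
  rw [← c1, ← d1, a, (Gl1 _ (ha _) _ (hb _) _ c3).2.1 _ d3 b]

theorem complete (h : NAE φ) : COL (red φ) := by
  obtain ⟨σ, h⟩ := h
  rw [nae_iff] at h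
  have : ∀ b i, ∃ p < 3, i < φ.length → σ (var φ (3 * i + p)) = b := fun b i => by
    by_cases a : i < φ.length
    · have := h i a
      by_contra k
      push Not at k
      have k0 := (k 0 (by omega)).2
      have k1 := (k 1 (by omega)).2
      have k2 := (k 2 (by omega)).2
      rw [add_zero] at k0
      revert this k0 k1 k2
      cases b <;> cases σ (var φ (3 * i)) <;> cases σ (var φ (3 * i + 1)) <;>
        cases σ (var φ (3 * i + 2)) <;> simp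
    · exact ⟨0, by omega, fun b => absurd b a⟩
  choose p p1 p2 using this
  obtain ⟨N, hN⟩ : ∃ N, N = 3 * φ.length := ⟨_, rfl⟩
  let s : ℕ → ℕ := fun o => (σ (var φ o)).toNat
  let f : ℕ → ℕ := fun y => if N ≤ y / 4 ∨ y % 4 = 3 ∨ s (y / 4) = 1 then y else
    if y % 4 = 2 then 4 * nxt φ (y / 4) else y + 1
  let g : ℕ → ℕ := fun y => G N (p false (idx N y)) (p true (idx N y)) y
  have f1 : ∀ y < 16 * φ.length, (f y, y) ∈ (red φ).2.2.1 := fun y a => by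
    have := fun a => (nl (φ := φ) (o := y / 4) a).1
    simp only [m1, f, R1]
    split_ifs with b <;> omega
  have g1 := fun y a => G1 (y := y) hN (p1 false (idx N y)) (p1 true (idx N y)) a
  refine ⟨_, _, pm (g := f) (fun y a => mem_append_left _ (f1 y a)) fun y a z b e => ?_,
    pm (g := g) (fun y a => ?_) fun y a z b e => ?_, Set.disjoint_left.2 fun ⟨x, y⟩ a b => ?_,
    fun ⟨x, y⟩ ⟨a, b⟩ => (show x = f y from b) ▸ f1 y a⟩
  · have k : ∀ y z, y / 4 < N → z = 4 * nxt φ (y / 4) → s (z / 4) = s (y / 4) ∧ z / 4 < N :=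
      fun y z a c => by
        have := nl (φ := φ) (o := y / 4) (by omega)
        rw [c, Nat.mul_div_cancel_left _ (by omega)]
        exact ⟨by simp only [s, this.2], by omega⟩
    have k1 := k y z
    have k2 := k z y
    have k3 : y / 4 = z / 4 → s (y / 4) = s (z / 4) := fun e => by rw [e]
    have := nxt_inj φ (o := y / 4) (o' := z / 4)
    simp only [f] at e
    split_ifs at e <;> omega
  · obtain ⟨c, d | d⟩ := g1 y a
    · exact mem_append_right _ (m2.2 ⟨⟨c, a⟩, hN ▸ d⟩)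
    · exact mem_append_left _ (m1.2 ⟨⟨c, a⟩, by simp only [R1, g]; omega⟩)
  · exact G2 hN (p1 _) (p1 _) a b e
  · have e : f y = g y := a.2.symm.trans b.2
    have l : y < 16 * φ.length := a.1
    obtain ⟨c, d | d⟩ := g1 y l
    · exact valid.2 _ (f1 y l) (m2.2 ⟨⟨e ▸ c, l⟩, hN ▸ e ▸ d⟩)
    have q : ∀ b, y / 4 % 3 = p b (idx N y) → s (y / 4) = b.toNat := fun b c => by
      rw [idx, if_neg (by omega)] at c
      rw [← p2 b (y / 12) (by omega)]
      simp only [s]; congr 3; omega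
    have q0 := q false
    have q1 := q true
    simp only [f, g, Bool.toNat_true, Bool.toNat_false] at e q0 q1
    split_ifs at e <;> omega

theorem result : NPHard fun y => Valid y ∧ COL y :=
  (hard_NAE.hardFor.red red red_pt fun _ _ => ⟨valid, complete, sound⟩).npHard

end Pool.Agent.Results.MP_439cda_lc.Hard
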